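import Mathlib

/-! No symmetric linear (2,p,p)-AONT in standard form exists for a prime p > 5. -/

namespace Pool.Agent.Results.MP_e1f2d0_co.NoSymmetric

open Finset

/-- A linear `(2,s,·)`-AONT: invertible, with every `2 × 2` submatrix invertible. -/
def IsAONT2 {F : Type} [Field F] {s : ℕ} (M : Matrix (Fin s) (Fin s) F) : Prop :=
  IsUnit M ∧ ∀ r c : Fin 2 ↪ Fin s, IsUnit (M.submatrix r c)

/-- Standard form, with indices numbered from 0. -/
def Standard {F : Type} [Field F] {s : ℕ} (M : Matrix (Fin s) (Fin s) F) : Prop :=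
  (∀ i j, i.1 = 0 → j.1 ≠ 0 → M i j = 1 ∧ M j i = 1) ∧ ∀ i, i.1 + 1 < s → M i i = 0

variable {F : Type} [Field F] [Fintype F] [DecidableEq F]

lemma gauss (T : Finset F) (hT : ∀ v, v ≠ 0 → (v ∈ T ↔ -v ∉ T)) (h0 : 0 ∉ T) (h : F)
    (hh : h ≠ 0) : h ^ T.card = (-1) ^ (T.filter (h * · ∉ T)).card := by
  have n : ∀ v ∈ T, v ≠ 0 := fun v hv e => h0 (e ▸ hv)
  have e : ∏ v ∈ T, (if h * v ∉ T then -1 else 1) * (h * v) = ∏ v ∈ T, v := by
    refine prod_bij (fun v _ => (if h * v ∉ T then -1 else 1) * (h * v)) ?_ ?_ ?_ fun _ _ => rfl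
    · intro v hv
      have := hT (h * v) (mul_ne_zero hh (n v hv))
      grind
    · intro a ha b hb
      have := hT a (n a ha)
      grind
    · intro b hb
      by_cases hc : b / h ∈ T
      · exact ⟨_, hc, by grind⟩
      · exact ⟨-(b / h), by have := hT _ (div_ne_zero (n b hb) hh); grind,
          by have := hT b (n b hb); grind⟩
  rw [prod_mul_distrib, prod_mul_distrib, prod_const, ← prod_filter, prod_const, ← mul_assoc,
    mul_eq_right₀ (prod_ne_zero_iff.2 n)] at e
  have : ((-1 : F) ^ (T.filter (h * · ∉ T)).card) ^ 2 = 1 := by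
    rw [← pow_mul, mul_comm, pow_mul]; simp
  linear_combination (-1) ^ (T.filter (h * · ∉ T)).card * e - h ^ T.card * this

lemma prod_all : ∏ v ∈ univ.erase (0 : F), v = -1 := by
  have := congrArg Units.val (FiniteField.prod_univ_units_id_eq_neg_one (K := F))
  rw [Units.coe_prod] at this
  rw [← show ((-1 : Fˣ) : F) = -1 by simp, ← this]
  symm
  refine prod_bij (fun v _ => v.1) (by simp) (fun _ _ _ _ => Units.ext) (fun b hb => ?_) (by simp)
  exact ⟨Units.mk0 b (ne_of_mem_erase hb), by simp⟩

/-- An injective family of `q - 2` nonzero elements misses exactly minus the inverse product. -/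
lemma miss {ι : Type} (s : Finset ι) (f : ι → F) (hf : Set.InjOn f s) (h0 : ∀ i ∈ s, f i ≠ 0)
    (hs : s.card + 2 = Fintype.card F) (g : F) (hg : (∏ i ∈ s, f i) * g = -1) :
    s.image f = (univ.erase 0).erase g := by
  have h1 : s.image f ⊆ univ.erase 0 := by grind
  obtain ⟨a, ha⟩ := card_eq_one.1 (show (univ.erase 0 \ s.image f).card = 1 by
    rw [card_sdiff_of_subset h1, card_image_of_injOn hf, card_erase_of_mem (mem_univ _), card_univ]
    omega)
  have h2 := prod_sdiff (f := id) h1
  rw [ha, prod_singleton, prod_image hf] at h2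
  have : a = g := mul_left_cancel₀ (prod_ne_zero_iff.2 h0)
    (by simp only [id] at h2; rw [hg, mul_comm, h2, prod_all])
  rw [← this, ← sdiff_singleton_eq_erase _ (univ.erase 0), ← ha, Finset.sdiff_sdiff_eq_self h1]

lemma core {ι : Type} [Fintype ι] [DecidableEq ι] (hc : Fintype.card ι = Fintype.card F)
    (h2 : (2 : F) ≠ 0) (N : ι → ι → F) (h0 : ∀ i k, i ≠ k → N i k ≠ 0)
    (inj : ∀ i j, i ≠ j → Set.InjOn (fun k => N i k / N j k) ↑((univ.erase i).erase j))
    (im : ∀ i j, i ≠ j → ((univ.erase i).erase j).image (fun k => N i k / N j k) =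
      (univ.erase 0).erase (-1)) :
    ∃ m, 2 * m + 1 = Fintype.card F ∧ ∃ c, ∀ h : F, h ≠ 0 → h ≠ 1 → h ≠ -1 → h ^ m = c := by
  let c : ι → F → ℤ := fun k v => ((univ.erase k).filter (N · k = v)).card
  have one : ∀ h, h ≠ 0 → h ≠ -1 → ∀ i j, i ≠ j →
      (((univ.erase i).erase j).filter fun k => N i k = h * N j k).card = 1 := by
    intro h a b i j hij
    obtain ⟨k, hk, e⟩ := mem_image.1 (show h ∈ _ by rw [im i j hij]; simp [a, b])
    refine card_eq_one.2 ⟨k, eq_singleton_iff_unique_mem.2 ⟨mem_filter.2 ⟨hk, ?_⟩, fun x hx => ?_⟩⟩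
    · have := h0 j k (by grind); grind
    · refine inj i j hij (mem_filter.1 hx).1 hk ?_
      have := h0 j x (by grind); grind
  have cc : ∀ h k, ∑ v, c k (h * v) * c k v = ∑ i, ∑ j,
      if i ≠ k ∧ j ≠ k ∧ N i k = h * N j k then (1 : ℤ) else 0 := by
    intro h k
    simp only [c, card_filter, sum_mul_sum]
    push_cast
    simp only [sum_mul_sum]
    rw [sum_comm, ← add_sum_erase _ _ (mem_univ k)]
    simp only [ne_eq, not_true, false_and, if_false, sum_const_zero, zero_add]
    refine sum_congr rfl fun i hi => ?_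
    rw [sum_comm, ← add_sum_erase _ _ (mem_univ k)]
    simp only [not_true, false_and, and_false, if_false, zero_add]
    refine sum_congr rfl fun j hj => ?_
    rw [sum_eq_single (N j k)] <;> grind
  have q1 : 1 ≤ Fintype.card F := Fintype.card_pos
  have ce : ∀ i : ι, ((univ.erase i).card : ℤ) = Fintype.card F - 1 := fun i => by
    rw [card_erase_of_mem (mem_univ _), card_univ, hc]; omega
  have tot : ∀ h, h ≠ 0 → h ≠ -1 → ∑ k, ∑ v, c k (h * v) * c k v =
      Fintype.card F * ((if h = 1 then 2 else 1) * (Fintype.card F - 1)) := by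
    intro h a b
    simp only [cc]
    rw [sum_comm, ← hc, ← nsmul_eq_mul, ← card_univ, ← sum_const, card_univ, hc]
    refine sum_congr rfl fun i _ => ?_
    rw [sum_comm, ← add_sum_erase _ _ (mem_univ i), sum_congr rfl (s₁ := univ.erase i)
      (g := fun _ => 1) fun j hj => ?_, sum_const, nsmul_eq_mul, ce, sum_boole]
    · split_ifs with h1
      · rw [show (univ.filter fun k => i ≠ k ∧ i ≠ k ∧ N i k = h * N i k) = univ.erase i by grind, ce]
        ring
      · rw [filter_eq_empty_iff.2 fun k _ => by have := h0 i k; grind]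
        simp
    · rw [sum_boole, ← Nat.cast_one, ← one h a b i j (ne_of_mem_erase hj).symm]
      congr 2
      grind
  have neg : ∀ k v, c k (-v) * c k v = 0 := by
    intro k v
    have := cc (-1) k
    rw [sum_eq_zero (s := univ) (f := fun i => ∑ j, _) fun i _ => sum_eq_zero fun j _ => if_neg ?_,
      sum_eq_zero_iff_of_nonneg fun v _ => by positivity] at this
    · simpa using this v (mem_univ _)
    rintro ⟨a, b, e⟩
    have := h0 j k b
    by_cases hij : i = j
    · grind
    · have : (-1 : F) ∈ (univ.erase 0).erase (-1) := by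
        rw [← im i j hij]
        exact mem_image.2 ⟨k, by grind, by grind⟩
      simp at this
  have c0 : ∀ k, c k 0 = 0 := fun k => by
    simp only [c, Nat.cast_eq_zero, card_eq_zero, filter_eq_empty_iff]; grind
  have cs : ∀ k, ∑ v, c k v = Fintype.card F - 1 := fun k => by
    rw [← ce k, card_eq_sum_card_fiberwise (f := (N · k)) (t := univ) (by simp)]; simp [c]
  have S : ∀ k, ∑ v ∈ univ.erase 0, (c k v + c k (-v) - 2) ^ 2 =
      2 * ∑ v, c k (1 * v) * c k v - 4 * (Fintype.card F - 1) := by
    intro k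
    have e1 := add_sum_erase univ (fun v => (c k v + c k (-v) - 2) ^ 2) (mem_univ 0)
    have e2 := Equiv.sum_comp (Equiv.neg F) (c k)
    have e3 := Equiv.sum_comp (Equiv.neg F) fun v => c k v * c k v
    have e4 : ∑ v, (c k v + c k (-v) - 2) ^ 2 = ∑ v, (c k v * c k v + c k (-v) * c k (-v) -
        4 * c k v - 4 * c k (-v) + 4) := sum_congr rfl fun v _ => by linear_combination 2 * neg k v
    simp only [sum_add_distrib, sum_sub_distrib, ← mul_sum, sum_const, card_univ, nsmul_eq_mul,
      Equiv.neg_apply, neg_zero, c0, one_mul] at e1 e2 e3 e4 ⊢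
    linarith [cs k]
  have two : ∀ k v, v ≠ 0 → c k v + c k (-v) = 2 := by
    have : ∑ k, ∑ v ∈ univ.erase 0, (c k v + c k (-v) - 2) ^ 2 = 0 := by
      simp only [S, sum_sub_distrib, ← mul_sum, tot 1 one_ne_zero (by grind), sum_const, card_univ,
        hc, nsmul_eq_mul, if_true]
      ring
    intro k v hv
    rw [sum_eq_zero_iff_of_nonneg fun _ _ => by positivity] at this
    have := (sum_eq_zero_iff_of_nonneg fun _ _ => by positivity).1 (this k (mem_univ _)) v (by simp [hv])
    exact sub_eq_zero.1 (pow_eq_zero_iff two_ne_zero |>.1 this)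
  let T : ι → Finset F := fun k => univ.filter (c k · = 2)
  have cT : ∀ k v, c k v = if v ∈ T k then 2 else 0 := by
    intro k v
    simp only [T, mem_filter, mem_univ, true_and]
    split_ifs with h
    · exact h
    by_cases hv : v = 0
    · rw [hv, c0]
    have := two k v hv
    rcases mul_eq_zero.1 (neg k v) with h | h <;> omega
  have Tm : ∀ k, 2 * (T k).card + 1 = Fintype.card F := fun k => by
    have := cs k
    simp only [cT k, sum_ite_mem, univ_inter, sum_const, nsmul_eq_mul] at this
    omega
  obtain ⟨m, hm⟩ : ∃ m, 2 * m + 1 = Fintype.card F :=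
    ⟨_, Tm (Classical.choice (Fintype.card_pos_iff.1 (hc ▸ q1)))⟩
  refine ⟨m, hm, (-1) ^ ((2 * m + 1) * m / 2), fun h a b d => ?_⟩
  have g : ∀ k, h ^ m = (-1) ^ ((T k).filter (h * · ∉ T k)).card := fun k => by
    rw [← gauss (T k) (fun v hv => by have := two k v hv; have := cT k v; have := cT k (-v); grind)
      (by simp [T, c0]) h a, show (T k).card = m by have := Tm k; omega]
  have r : ∀ k, ∑ v, c k (h * v) * c k v = 4 * (m - ((T k).filter (h * · ∉ T k)).card) := by
    intro k
    rw [← show (T k).card = m by have := Tm k; omega, ← card_filter_add_card_filter_not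
      (s := T k) (h * · ∈ T k), sum_congr rfl (g := fun v => if v ∈ (T k).filter (h * · ∈ T k)
        then 4 else 0) fun v _ => by
          rw [cT, cT]; simp only [mem_filter]; split_ifs <;> simp_all]
    rw [sum_ite_mem, univ_inter, sum_const]
    simp [mul_comm]
  have t := tot h a d
  simp only [r, if_neg b, ← mul_sum, sum_sub_distrib, sum_const, card_univ, hc, nsmul_eq_mul,
    ← hm] at t
  rw [← FiniteField.pow_card (h ^ m), ← hc, ← card_univ, ← prod_const, prod_congr rfl fun k _ => g k,
    prod_pow_eq_pow_sum]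
  congr 1
  rw [← Nat.cast_sum] at t
  generalize ∑ k, ((T k).filter (h * · ∉ T k)).card = K at t
  have : (2 * m + 1) * m = 2 * K := by push_cast at t; zify; linarith
  omega

theorem result (p : ℕ) [Fact p.Prime] (hp : 5 < p) (M : Matrix (Fin p) (Fin p) (ZMod p)) :
    ¬ (M.transpose = M ∧ Standard M ∧ IsAONT2 M) := by
  rintro ⟨hs, ⟨-, hd⟩, -, hm⟩
  have sy : ∀ i j, M i j = M j i := fun i j => congrFun (congrFun hs j) i
  have mi : ∀ i j k l, i ≠ j → k ≠ l → M i k * M j l ≠ M i l * M j k := by
    intro i j k l h1 h2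
    have := hm ⟨![i, j], by intro a b; fin_cases a <;> fin_cases b <;> simp [h1, h1.symm]⟩
      ⟨![k, l], by intro a b; fin_cases a <;> fin_cases b <;> simp [h2, h2.symm]⟩
    rw [Matrix.isUnit_iff_isUnit_det, Matrix.det_fin_two, isUnit_iff_ne_zero] at this
    exact sub_ne_zero.1 this
  have nz : ∀ n : ℕ, 0 < n → n ≤ 5 → (n : ZMod p) ≠ 0 := fun n a b h => by
    have := Nat.le_of_dvd a ((ZMod.natCast_eq_zero_iff n p).1 h); omega
  have h2 : (2 : ZMod p) ≠ 0 := by simpa using nz 2
  have h3 : (3 : ZMod p) ≠ 0 := by simpa using nz 3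
  have h5 : (5 : ZMod p) ≠ 0 := by simpa using nz 5
  have h0 : ∀ i k, i ≠ k → M i k ≠ 0 := by
    intro i k h e
    refine mi i k i k h h ?_
    rw [e, zero_mul]
    by_cases hi : i.1 + 1 < p
    · rw [hd i hi, zero_mul]
    · rw [hd k (by have := Fin.val_ne_of_ne h; omega), mul_zero]
  let R := fun i => ∏ k ∈ univ.erase i, M i k
  have R0 : ∀ i, R i ≠ 0 := fun i => prod_ne_zero_iff.2 fun k hk => h0 i k (ne_of_mem_erase hk).symm
  have inj : ∀ i j, i ≠ j → Set.InjOn (fun k => R i * M i k / (R j * M j k))
      ↑((univ.erase i).erase j) := by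
    intro i j hij k hk l hl e
    by_contra hkl
    have := h0 j k (by grind)
    have := h0 j l (by grind)
    have := R0 i
    have := R0 j
    refine mi i j k l hij hkl ?_
    simp only at e
    field_simp at e
    linear_combination e
  have im : ∀ i j, i ≠ j → ((univ.erase i).erase j).image (fun k => R i * M i k / (R j * M j k)) =
      (univ.erase 0).erase (-1) := by
    intro i j hij
    have cd : ((univ.erase i).erase j).card + 2 = p := by
      rw [card_erase_of_mem (by simp [hij.symm]), card_erase_of_mem (mem_univ _), card_fin]; omega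
    refine miss _ _ (inj i j hij) (fun k hk => ?_) (by rw [cd, ZMod.card]) _ ?_
    · exact div_ne_zero (mul_ne_zero (R0 i) (h0 i k (by grind))) (mul_ne_zero (R0 j) (h0 j k (by grind)))
    · have e1 := mul_prod_erase (univ.erase i) (M i) (show j ∈ _ by simp [hij.symm])
      have e2 := mul_prod_erase (univ.erase j) (M j) (show i ∈ _ by simp [hij])
      rw [erase_right_comm, sy j i] at e2
      have f1 := ZMod.pow_card_sub_one_eq_one (R0 i)
      have f2 := ZMod.pow_card_sub_one_eq_one (R0 j)
      rw [show p - 1 = ((univ.erase i).erase j).card + 1 by omega, pow_succ] at f1 f2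
      rw [prod_div_distrib, prod_mul_distrib, prod_mul_distrib, prod_const, prod_const,
        mul_neg_one, neg_inj, div_eq_one_iff_eq]
      · apply mul_left_cancel₀ (h0 i j hij)
        change _ = R i at e1
        change _ = R j at e2
        linear_combination f1 - f2 + R i ^ ((univ.erase i).erase j).card * e1 -
          R j ^ ((univ.erase i).erase j).card * e2
      · exact mul_ne_zero (pow_ne_zero _ (R0 j)) (prod_ne_zero_iff.2 fun k hk => h0 j k (by grind))
  obtain ⟨m, hm, c, hc⟩ := core (by simp) h2 (fun i k => R i * M i k)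
    (fun i k h => mul_ne_zero (R0 i) (h0 i k h)) inj im
  rw [ZMod.card] at hm
  have c4 := hc (2 ^ 2) (pow_ne_zero _ h2) (fun e => h3 (by linear_combination e))
    (fun e => h5 (by linear_combination e))
  have n1 : (-1 : ZMod p) ≠ 1 := fun e => h2 (by linear_combination -e)
  have c1 : c = 1 := by
    rw [← c4, ← pow_mul, show 2 * m = p - 1 by omega, ZMod.pow_card_sub_one_eq_one h2]
  have := card_le_card (s := ((univ.erase (0 : ZMod p)).erase 1).erase (-1))
    (t := Polynomial.nthRootsFinset m 1) fun x hx =>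
      (Polynomial.mem_nthRootsFinset (by omega) _).2 (by rw [← c1]; exact hc x (by grind) (by grind) (by grind))
  have b := (Multiset.toFinset_card_le _).trans (Polynomial.card_nthRoots m (1 : ZMod p))
  rw [← Polynomial.nthRootsFinset_def] at b
  rw [card_erase_of_mem (by simp [n1]), card_erase_of_mem (by simp), card_erase_of_mem (by simp),
    card_univ, ZMod.card] at this
  omega

end Pool.Agent.Results.MP_e1f2d0_co.NoSymmetric
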